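import Pool.Agent.Helper93.TH3.StD

/-!
# Project TH3, module Tri: triangular system of symbols modulo 3

Models: `Pool/Agent/Helper22/W3/M_Tri.lean`, `Pool/Agent/Helper6/TH/M_Tri.lean`.
-/

set_option autoImplicit false

namespace Pool.Agent.Helper33.TH3

open Pool.Agent.Helper14.CV (Homog EqC act Tl StFar StFex)
open Pool.Agent.Helper28.WK (Tw evw)
open Pool.Agent.Helper78.W3 (tr Fn3 Tm opL op3 mulL negL Wd3 dX dY oD oN Lw sS M5 bb3 S3PlA S3Trm S3Low0 S3Nf S3Exp S3Lw1 S3Bb)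
open Pool.Agent.Helper93.TLH (HTy SymH SHHk SHHkS LBH)
open Pool.Agent.Helper93.TLE (DDE)
open Pool.Agent.Helper93.TH3

section comm

variable {E : Type} [Ring E]

private theorem lo_Tri (D Y : E) (h : D * Y = Y * D) (h3 : ∀ x : E, x + x + x = 0) :
    D ^ 3 * Y + D ^ 2 * Y ^ 2 + D * Y ^ 3 = D * Y * (D - Y) ^ 2 := by
  have h' : ∀ z, Y * (D * z) = D * (Y * z) := by
    intro z
    rw [← mul_assoc, ← h, mul_assoc]
  have h1 := h3 (D * (D * (Y * Y)))
  rw [← sub_eq_zero]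
  have h2 : D ^ 3 * Y + D ^ 2 * Y ^ 2 + D * Y ^ 3 - D * Y * (D - Y) ^ 2 =
      D * (D * (Y * Y)) + D * (D * (Y * Y)) + D * (D * (Y * Y)) := by
    simp only [pow_succ, pow_zero, one_mul, mul_sub, sub_mul, mul_assoc, ← h, h']
    abel
  rw [h2, h1]

private theorem reorder_Tri (A D Y : E) (h : D * Y = Y * D) (hAD : Commute A D)
    (hAY : Commute A Y) (h3 : ∀ x : E, x + x + x = 0) (i j : ℕ) :
    (D * Y) ^ i * (D ^ 3 * Y + D ^ 2 * Y ^ 2 + D * Y ^ 3) ^ j * A =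
      A * (D - Y) ^ (2 * j) * (D ^ (i + j) * Y ^ (i + j)) := by
  have hDY : Commute D Y := h
  have hDS : Commute D (D - Y) := (Commute.refl D).sub_right hDY
  have hYS : Commute Y (D - Y) := hDY.symm.sub_right (Commute.refl Y)
  have hQS : Commute (D * Y) (D - Y) := hDS.mul_left hYS
  have hAS : Commute A (D - Y) := hAD.sub_right hAY
  have hAQ : Commute A (D * Y) := hAD.mul_right hAY
  rw [lo_Tri D Y h h3, (hQS.pow_right 2).mul_pow, ← pow_mul]
  have h1 : (D * Y) ^ (i + j) * (D - Y) ^ (2 * j) = (D - Y) ^ (2 * j) * (D * Y) ^ (i + j) :=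
    (hQS.pow_pow _ _).eq
  have h2 : (D - Y) ^ (2 * j) * (D * Y) ^ (i + j) * A = A * ((D - Y) ^ (2 * j) * (D * Y) ^ (i + j)) :=
    ((hAS.pow_right _).mul_right (hAQ.pow_right _)).eq.symm
  calc (D * Y) ^ i * ((D * Y) ^ j * (D - Y) ^ (2 * j)) * A
      = (D * Y) ^ (i + j) * (D - Y) ^ (2 * j) * A := by
        rw [pow_add]
        simp only [mul_assoc]
    _ = A * (D - Y) ^ (2 * j) * (D ^ (i + j) * Y ^ (i + j)) := by
        rw [h1, h2, hDY.mul_pow]
        simp only [mul_assoc]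

end comm

section main

variable {r s : ℕ}

private theorem dy_pow_Tri (hBb : S3Bb) (p q m : ℕ) (hp : p < 3 ^ r) (hq : m + q < 3 ^ s) :
    (dY ^ m : Module.End (ZMod 3) (Fn3 (3 ^ r) (3 ^ s))) (bb3 p (m + q)) = bb3 p q := by
  induction m with
  | zero =>
    rw [pow_zero, zero_add]
    rfl
  | succ m ih =>
    have h1 : m + 1 + q = (m + q) + 1 := by ring
    rw [pow_succ, Module.End.mul_apply, h1,
      (hBb r s).2.2.1 p (m + q) hp (by omega)]
    exact ih (by omega)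

private theorem dx_pow_Tri (hBb : S3Bb) (p q m : ℕ) (hq : q < 3 ^ s) (hp : m + p < 3 ^ r) :
    (dX ^ m : Module.End (ZMod 3) (Fn3 (3 ^ r) (3 ^ s))) (bb3 (m + p) q) = bb3 p q := by
  induction m with
  | zero =>
    rw [pow_zero, zero_add]
    rfl
  | succ m ih =>
    have h1 : m + 1 + p = (m + p) + 1 := by ring
    rw [pow_succ, Module.End.mul_apply, h1,
      (hBb r s).2.1 (m + p) q (by omega) hq]
    exact ih (by omega)

private theorem dy_kill_Tri (hBb : S3Bb) (p q m : ℕ) (hp : p < 3 ^ r) (hq : q < 3 ^ s)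
    (h : q < m) :
    (dY ^ m : Module.End (ZMod 3) (Fn3 (3 ^ r) (3 ^ s))) (bb3 p q) = 0 := by
  obtain ⟨c, rfl⟩ : ∃ c, m = c + (1 + q) := ⟨m - (1 + q), by omega⟩
  rw [pow_add, pow_add, Module.End.mul_apply, Module.End.mul_apply]
  have h1 := dy_pow_Tri (r := r) (s := s) hBb p 0 q hp (by omega)
  rw [add_zero] at h1
  rw [h1, pow_one, (hBb r s).2.2.2.2.1 p hp, map_zero]

private theorem sum_pow_Tri (hBb : S3Bb) (p m : ℕ) (hp : m + p < 3 ^ r) (hs : 0 < 3 ^ s) :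
    ((dX - dY) ^ m : Module.End (ZMod 3) (Fn3 (3 ^ r) (3 ^ s))) (bb3 (m + p) 0) = bb3 p 0 := by
  induction m with
  | zero =>
    rw [pow_zero, zero_add]
    rfl
  | succ m ih =>
    have h1 : m + 1 + p = (m + p) + 1 := by ring
    rw [pow_succ, Module.End.mul_apply, h1, LinearMap.sub_apply,
      (hBb r s).2.1 (m + p) 0 (by omega) hs,
      (hBb r s).2.2.2.2.1 (m + p + 1) (by omega), sub_zero]
    exact ih (by omega)

private theorem low_pow_Tri (hLow0 : S3Low0) (O : Module.End (ZMod 3) (Fn3 (3 ^ r) (3 ^ s)))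
    (k : ℤ) (h : Lw O k) (i : ℕ) : Lw (O ^ i) ((i : ℤ) * k) := by
  induction i with
  | zero =>
    rw [pow_zero, Nat.cast_zero, zero_mul]
    exact (hLow0 r s).2.2.2.2.2.1
  | succ i ih =>
    have h1 : ((i + 1 : ℕ) : ℤ) * k = (i : ℤ) * k + k := by
      push_cast
      ring
    rw [pow_succ, h1]
    exact (hLow0 r s).1 _ _ _ _ ih h

private theorem three_Tri (x : Module.End (ZMod 3) (Fn3 (3 ^ r) (3 ^ s))) : x + x + x = 0 := by
  have h : (1 : ZMod 3) + 1 + 1 = 0 := by decide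
  have h2 : ((1 : ZMod 3) + 1 + 1) • x = x + x + x := by
    rw [add_smul, add_smul, one_smul]
  rw [← h2, h, zero_smul]

private theorem neg_Tri (x : Module.End (ZMod 3) (Fn3 (3 ^ r) (3 ^ s))) :
    (-1 : ZMod 3) • x = -x := by
  have h := neg_smul (1 : ZMod 3) x
  rw [one_smul] at h
  exact h

private theorem low_sub_Tri (hLow0 : S3Low0) (O P : Module.End (ZMod 3) (Fn3 (3 ^ r) (3 ^ s)))
    (k : ℤ) (h : Lw O k) (h' : Lw P k) : Lw (O - P) k := by
  have h2 : O - P = O + (-1 : ZMod 3) • P := by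
    rw [neg_Tri, sub_eq_add_neg]
  rw [h2]
  exact (hLow0 r s).2.1 _ _ _ h ((hLow0 r s).2.2.1 _ _ _ h')

private theorem low_mon_Tri (hLow0 : S3Low0) (k l : ℕ) (d : ℤ) (hd : (k : ℤ) + l = d) :
    Lw (dX ^ k * dY ^ l : Module.End (ZMod 3) (Fn3 (3 ^ r) (3 ^ s))) d := by
  have h1 := low_pow_Tri hLow0 _ _ (hLow0 r s).2.2.2.2.2.2.1 k
  have h2 := low_pow_Tri hLow0 _ _ (hLow0 r s).2.2.2.2.2.2.2.1 l
  rw [mul_one] at h1 h2
  rw [← hd]
  exact (hLow0 r s).1 _ _ _ _ h1 h2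

private theorem low_dy2_Tri (hLow0 : S3Low0) :
    Lw (dY ^ 2 : Module.End (ZMod 3) (Fn3 (3 ^ r) (3 ^ s))) 2 := by
  have h := low_mon_Tri (r := r) (s := s) hLow0 0 2 2 (by norm_num)
  rwa [pow_zero, one_mul] at h

private theorem low_dx2_Tri (hLow0 : S3Low0) :
    Lw (dX ^ 2 : Module.End (ZMod 3) (Fn3 (3 ^ r) (3 ^ s))) 2 := by
  have h := low_mon_Tri (r := r) (s := s) hLow0 2 0 2 (by norm_num)
  rwa [pow_zero, mul_one] at h

private theorem low_Qo_Tri (hLow0 : S3Low0) :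
    Lw (QoT : Module.End (ZMod 3) (Fn3 (3 ^ r) (3 ^ s))) 2 :=
  (hLow0 r s).1 _ _ _ _ (hLow0 r s).2.2.2.2.2.2.1 (hLow0 r s).2.2.2.2.2.2.2.1

private theorem low_Lo_Tri (hLow0 : S3Low0) :
    Lw (LoT : Module.End (ZMod 3) (Fn3 (3 ^ r) (3 ^ s))) 4 := by
  have h1 : Lw (dX ^ 3 * dY : Module.End (ZMod 3) (Fn3 (3 ^ r) (3 ^ s))) 4 := by
    have h := low_mon_Tri (r := r) (s := s) hLow0 3 1 4 (by norm_num)
    rwa [pow_one] at h
  have h2 : Lw (dX * dY ^ 3 : Module.End (ZMod 3) (Fn3 (3 ^ r) (3 ^ s))) 4 := by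
    have h := low_mon_Tri (r := r) (s := s) hLow0 1 3 4 (by norm_num)
    rwa [pow_one] at h
  exact (hLow0 r s).2.1 _ _ _ ((hLow0 r s).2.1 _ _ _ h1
    (low_mon_Tri hLow0 2 2 4 (by norm_num))) h2

private theorem low_all_Tri (hLow0 : S3Low0) (A : Module.End (ZMod 3) (Fn3 (3 ^ r) (3 ^ s))) (k : ℤ)
    (hA : Lw A k) (i j : ℕ) :
    Lw (QoT ^ i * LoT ^ j * A : Module.End (ZMod 3) (Fn3 (3 ^ r) (3 ^ s)))
      ((i : ℤ) * 2 + (j : ℤ) * 4 + k) :=
  (hLow0 r s).1 _ _ _ _ ((hLow0 r s).1 _ _ _ _ (low_pow_Tri hLow0 _ _ (low_Qo_Tri hLow0) i)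
    (low_pow_Tri hLow0 _ _ (low_Lo_Tri hLow0) j)) hA

private theorem form_Tri (hLow0 : S3Low0) (A : Module.End (ZMod 3) (Fn3 (3 ^ r) (3 ^ s)))
    (hAD : Commute A dX) (hAY : Commute A dY) (i j : ℕ) :
    (QoT ^ i * LoT ^ j * A : Module.End (ZMod 3) (Fn3 (3 ^ r) (3 ^ s))) =
      A * (dX - dY) ^ (2 * j) * (dX ^ (i + j) * dY ^ (i + j)) :=
  reorder_Tri _ _ _ (hLow0 r s).2.2.2.2.2.2.2.2.1 hAD hAY three_Tri i j

private theorem kill_Tri (hBb : S3Bb) (A : Module.End (ZMod 3) (Fn3 (3 ^ r) (3 ^ s)))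
    (m al be : ℕ) (hal : al < 3 ^ r) (hbe : be < 3 ^ s) (h : be < m) :
    (A * (dX ^ m * dY ^ m) : Module.End (ZMod 3) (Fn3 (3 ^ r) (3 ^ s))) (bb3 al be) = 0 := by
  rw [Module.End.mul_apply, Module.End.mul_apply, dy_kill_Tri hBb al be m hal hbe h, map_zero,
    map_zero]

private theorem val_Tri (hBb : S3Bb) (A : Module.End (ZMod 3) (Fn3 (3 ^ r) (3 ^ s))) (j m e : ℕ)
    (hal : m + (2 * j + e) < 3 ^ r) (hbe : m < 3 ^ s) :
    (A * (dX - dY) ^ (2 * j) * (dX ^ m * dY ^ m) :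
      Module.End (ZMod 3) (Fn3 (3 ^ r) (3 ^ s))) (bb3 (m + (2 * j + e)) m) = A (bb3 e 0) := by
  have hs0 : 0 < 3 ^ s := by positivity
  have h1 := dy_pow_Tri (r := r) (s := s) hBb (m + (2 * j + e)) 0 m hal (by omega)
  rw [add_zero] at h1
  rw [Module.End.mul_apply, Module.End.mul_apply, Module.End.mul_apply, h1,
    dx_pow_Tri hBb (2 * j + e) 0 m hs0 hal, sum_pow_Tri hBb e (2 * j) (by omega) hs0]

/-- The value at the origin only depends on the leading form. -/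
private theorem lead_Tri (hLow0 : S3Low0) (O : Module.End (ZMod 3) (Fn3 (3 ^ r) (3 ^ s)))
    (k : ℤ) (hO : Lw O k) (F L : Fn3 (3 ^ r) (3 ^ s)) (h : F - L ∈ Wd3 (k - 1)) :
    O F = O L := by
  have h1 := hO _ _ h
  have h2 : k - 1 - k = -1 := by ring
  rw [h2] at h1
  have h3 := (hLow0 r s).2.2.2.2.2.2.2.2.2.2.2.2.2 _ h1
  rw [map_sub] at h3
  exact sub_eq_zero.1 h3

/-- The symbol with leading forms `u0 bb`, `u1 bb`, `0`, even degree. -/
private theorem core_Tri (hl : S3Low0) (hd : TLed) (hx : TEx) (hi : TItr)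
    (al be : ℕ) (u0 u1 : ZMod 3) (hr : al < 3 ^ r) (hs : be < 3 ^ s) (hev : Even (al + be)) :
    ∃ G : ℤ → ℤ → ZMod 3, SymH 3 (r + 1) (s + 1) G ∧
      (∀ i j : ℕ, al + be < 2 * i + 4 * j → evT (3 ^ (r + 1)) G 2 i j = 0) ∧
      (∀ i j : ℕ, 2 * i + 4 * j = al + be → evT (3 ^ (r + 1)) G 2 i j =
        u0 * ((QoT ^ i * LoT ^ j * 1 : Module.End (ZMod 3) (Fn3 (3 ^ r) (3 ^ s))) (bb3 al be)) 0 0) ∧
      (∀ i j : ℕ, al + be < 2 * i + 4 * j + 1 → evT (3 ^ (r + 1)) G 1 i j = 0) ∧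
      (∀ i j : ℕ, al + be < 2 * i + 4 * j + 2 → evT (3 ^ (r + 1)) G 0 i j = 0) ∧
      (∀ i j : ℕ, 2 * i + 4 * j + 2 = al + be → evT (3 ^ (r + 1)) G 0 i j =
        u1 * ((QoT ^ i * LoT ^ j * (dX ^ 2 - dY ^ 2) :
          Module.End (ZMod 3) (Fn3 (3 ^ r) (3 ^ s))) (bb3 al be)) 0 0 -
        u0 * ((QoT ^ i * LoT ^ j * dY ^ 2 :
          Module.End (ZMod 3) (Fn3 (3 ^ r) (3 ^ s))) (bb3 al be)) 0 0) := by
  obtain ⟨F, hRel, hF, hF0, hF1, hF2⟩ := hd r s al be u0 u1 0 hr hs hev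
  obtain ⟨G, hG, hGF⟩ := hx (ZMod 3) inferInstance r s F hRel
  have hdd : (al : ℤ) + (be : ℤ) = ((al + be : ℕ) : ℤ) := by push_cast; ring
  rw [hdd] at hF hF0 hF1 hF2
  have hI := hi r s G (al + be) hG (fun f => by rw [hGF f]; exact hF f)
  have hval : ∀ (A : Module.End (ZMod 3) (Fn3 (3 ^ r) (3 ^ s))) (k i j : ℕ), Lw A k →
      2 * i + 4 * j + k = al + be → ∀ (f : Fn3 (3 ^ r) (3 ^ s)) (w : ZMod 3),
      f - w • bb3 al be ∈ Wd3 (((al + be : ℕ) : ℤ) - 1) →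
      ((QoT ^ i * LoT ^ j * A : Module.End (ZMod 3) (Fn3 (3 ^ r) (3 ^ s))) f) 0 0 =
        w * ((QoT ^ i * LoT ^ j * A : Module.End (ZMod 3) (Fn3 (3 ^ r) (3 ^ s))) (bb3 al be)) 0 0 := by
    intro A k i j hA hk f w hf
    have h1 := low_all_Tri (r := r) (s := s) hl A k hA i j
    have h2 : ((i : ℤ) * 2 + (j : ℤ) * 4 + (k : ℤ)) = ((al + be : ℕ) : ℤ) := by
      rw [← hk]
      push_cast
      ring
    rw [h2] at h1
    rw [lead_Tri hl _ _ h1 _ _ hf, map_smul, Pi.smul_apply, Pi.smul_apply, smul_eq_mul]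
  have l1 : Lw (1 : Module.End (ZMod 3) (Fn3 (3 ^ r) (3 ^ s))) ((0 : ℕ) : ℤ) := by
    rw [Nat.cast_zero]; exact (hl r s).2.2.2.2.2.1
  have l2 : Lw (dX ^ 2 - dY ^ 2 : Module.End (ZMod 3) (Fn3 (3 ^ r) (3 ^ s))) ((2 : ℕ) : ℤ) :=
    low_sub_Tri hl _ _ _ (low_dx2_Tri hl) (low_dy2_Tri hl)
  have l3 : Lw (dY ^ 2 : Module.End (ZMod 3) (Fn3 (3 ^ r) (3 ^ s))) ((2 : ℕ) : ℤ) :=
    low_dy2_Tri hl
  have hF12 : F 1 + F 2 - u1 • bb3 al be ∈ Wd3 (((al + be : ℕ) : ℤ) - 1) := by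
    rw [zero_smul, sub_zero] at hF2
    have h1 : F 1 + F 2 - u1 • bb3 al be = (F 1 - u1 • bb3 al be) + F 2 := by abel
    rw [h1]
    exact Submodule.add_mem _ hF1 hF2
  refine ⟨G, hG, ?_, ?_, ?_, ?_, ?_⟩
  · intro i j h
    exact (hI i j).1 h
  · intro i j h
    rw [(hI i j).2.1 h, hGF 0, ← hval 1 0 i j l1 (by omega) _ _ hF0, mul_one]
  · intro i j h
    exact (hI i j).2.2.1 h
  · intro i j h
    exact (hI i j).2.2.2.2.1 h
  · intro i j h
    rw [(hI i j).2.2.2.2.2 h, hGF 0, hGF 1, hGF 2, hval _ 2 i j l2 h _ _ hF12,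
      hval _ 2 i j l3 h _ _ hF0]

/-- The symbol of odd degree. -/
private theorem coreo_Tri (hl : S3Low0) (ho : TLeo) (hx : TEx) (hi : TItr)
    (al be : ℕ) (hr : al < 3 ^ r) (hs : be < 3 ^ s) (hev : Odd (al + be)) :
    ∃ G : ℤ → ℤ → ZMod 3, SymH 3 (r + 1) (s + 1) G ∧
      (∀ i j : ℕ, al + be < 2 * i + 4 * j → evT (3 ^ (r + 1)) G 2 i j = 0) ∧
      (∀ i j : ℕ, al + be < 2 * i + 4 * j + 1 → evT (3 ^ (r + 1)) G 1 i j = 0) ∧
      (∀ i j : ℕ, 2 * i + 4 * j + 1 = al + be → evT (3 ^ (r + 1)) G 1 i j =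
        ((QoT ^ i * LoT ^ j * (dX - dY) :
          Module.End (ZMod 3) (Fn3 (3 ^ r) (3 ^ s))) (bb3 al be)) 0 0) ∧
      (∀ i j : ℕ, al + be < 2 * i + 4 * j + 2 → evT (3 ^ (r + 1)) G 0 i j = 0) := by
  obtain ⟨F, hRel, hF, hF12⟩ := ho r s al be hr hs hev
  obtain ⟨G, hG, hGF⟩ := hx (ZMod 3) inferInstance r s F hRel
  have hdd : (al : ℤ) + (be : ℤ) = ((al + be : ℕ) : ℤ) := by push_cast; ring
  rw [hdd] at hF hF12
  have hI := hi r s G (al + be) hG (fun f => by rw [hGF f]; exact hF f)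
  have l1 : Lw (dX - dY : Module.End (ZMod 3) (Fn3 (3 ^ r) (3 ^ s))) 1 :=
    low_sub_Tri hl _ _ _ (hl r s).2.2.2.2.2.2.1 (hl r s).2.2.2.2.2.2.2.1
  refine ⟨G, hG, ?_, ?_, ?_, ?_⟩
  · intro i j h
    exact (hI i j).1 h
  · intro i j h
    exact (hI i j).2.2.1 h
  · intro i j h
    rw [(hI i j).2.2.2.1 h, hGF 1, hGF 2]
    have h1 := low_all_Tri (r := r) (s := s) hl _ 1 l1 i j
    have h2 : ((i : ℤ) * 2 + (j : ℤ) * 4 + 1) = ((al + be : ℕ) : ℤ) := by
      rw [← h]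
      push_cast
      ring
    rw [h2] at h1
    rw [lead_Tri hl _ _ h1 _ _ hF12]
  · intro i j h
    exact (hI i j).2.2.2.2.1 h

end main

private theorem bb00_Tri (r s : ℕ) : ((bb3 0 0 : Fn3 (3 ^ r) (3 ^ s)) 0 0) = 1 := by simp [bb3]

/-- TRI. -/
theorem hTri (hl : S3Low0) (hb : S3Bb) (hd : TLed) (ho : TLeo) (hx : TEx) (hi : TItr) : TTri := by
  intro r s c i j hc hr hs
  have h1' : (1 : ZMod 3) ≠ 0 := by decide
  have hs0 : 0 < 3 ^ s := by positivity
  have hDY : Commute (dX : Module.End (ZMod 3) (Fn3 (3 ^ r) (3 ^ s))) dY :=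
    (hl r s).2.2.2.2.2.2.2.2.1
  have hc3 : c = 0 ∨ c = 1 ∨ c = 2 := by omega
  rcases hc3 with rfl | rfl | rfl
  · -- `c = 0`
    simp only [aT, Nat.sub_zero] at hr ⊢
    obtain ⟨G, hG, hg2, he2, hg1, hg0, he0⟩ := core_Tri (r := r) (s := s) hl hd hx hi
      (2 + i + 3 * j) (i + j) 0 1 hr hs ⟨1 + i + 2 * j, by ring⟩
    have hAX : Commute (dX ^ 2 - dY ^ 2 : Module.End (ZMod 3) (Fn3 (3 ^ r) (3 ^ s))) dX :=
      ((Commute.refl dX).pow_left 2).sub_left (hDY.symm.pow_left 2)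
    have hAY : Commute (dX ^ 2 - dY ^ 2 : Module.End (ZMod 3) (Fn3 (3 ^ r) (3 ^ s))) dY :=
      (hDY.pow_left 2).sub_left ((Commute.refl dY).pow_left 2)
    refine ⟨G, hG, ?_, ?_⟩
    · rw [he0 i j (by ring), zero_mul, sub_zero, one_mul, form_Tri hl _ hAX hAY]
      have e : 2 + i + 3 * j = (i + j) + (2 * j + 2) := by ring
      rw [e, val_Tri hb _ j (i + j) 2 (by omega) hs]
      have e2 : (dX ^ 2 - dY ^ 2 : Module.End (ZMod 3) (Fn3 (3 ^ r) (3 ^ s))) (bb3 2 0) = bb3 0 0 := by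
        have h5 := dx_pow_Tri (r := r) (s := s) hb 0 0 2 hs0 (by omega)
        have h6 := dy_kill_Tri (r := r) (s := s) hb 2 0 2 (by omega) hs0 (by norm_num)
        rw [add_zero] at h5
        rw [LinearMap.sub_apply, h5, h6, sub_zero]
      rw [e2, bb00_Tri]
      exact h1'
    · intro c' i' j' hc' hne
      have hc3 : c' = 0 ∨ c' = 1 ∨ c' = 2 := by omega
      rcases hc3 with rfl | rfl | rfl
      · rcases lt_trichotomy (2 + 2 * i' + 4 * j') (2 + 2 * i + 4 * j) with h | h | h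
        · left; omega
        · right
          refine ⟨by omega, Or.inr ⟨rfl, ?_⟩⟩
          by_contra hcon
          apply hne
          rw [he0 i' j' (by omega), zero_mul, sub_zero, one_mul, form_Tri hl _ hAX hAY,
            kill_Tri hb _ _ _ _ hr hs (by omega)]
          rfl
        · exact absurd (hg0 i' j' (by omega)) hne
      · rcases lt_trichotomy (1 + 2 * i' + 4 * j') (2 + 2 * i + 4 * j) with h | h | h
        · left; omega
        · omega
        · exact absurd (hg1 i' j' (by omega)) hne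
      · rcases lt_trichotomy (2 * i' + 4 * j') (2 + 2 * i + 4 * j) with h | h | h
        · left; omega
        · exact absurd (by rw [he2 i' j' (by omega), zero_mul]) hne
        · exact absurd (hg2 i' j' (by omega)) hne
  · -- `c = 1`
    have ha1 : aT 1 = 1 := rfl
    rw [ha1] at hr ⊢
    obtain ⟨G, hG, hg2, hg1, he1, hg0⟩ := coreo_Tri (r := r) (s := s) hl ho hx hi
      (1 + i + 3 * j) (i + j) hr hs ⟨i + 2 * j, by ring⟩
    have hAX : Commute (dX - dY : Module.End (ZMod 3) (Fn3 (3 ^ r) (3 ^ s))) dX :=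
      (Commute.refl dX).sub_left hDY.symm
    have hAY : Commute (dX - dY : Module.End (ZMod 3) (Fn3 (3 ^ r) (3 ^ s))) dY :=
      hDY.sub_left (Commute.refl dY)
    refine ⟨G, hG, ?_, ?_⟩
    · rw [he1 i j (by ring), form_Tri hl _ hAX hAY]
      have e : 1 + i + 3 * j = (i + j) + (2 * j + 1) := by ring
      rw [e, val_Tri hb _ j (i + j) 1 (by omega) hs]
      have e2 : (dX - dY : Module.End (ZMod 3) (Fn3 (3 ^ r) (3 ^ s))) (bb3 1 0) = bb3 0 0 := by
        have h5 := dx_pow_Tri (r := r) (s := s) hb 0 0 1 hs0 (by omega)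
        have h6 := dy_kill_Tri (r := r) (s := s) hb 1 0 1 (by omega) hs0 (by norm_num)
        rw [add_zero, pow_one] at h5
        rw [pow_one] at h6
        rw [LinearMap.sub_apply, h5, h6, sub_zero]
      rw [e2, bb00_Tri]
      exact h1'
    · intro c' i' j' hc' hne
      have hc3 : c' = 0 ∨ c' = 1 ∨ c' = 2 := by omega
      rcases hc3 with rfl | rfl | rfl
      · have h00 : aT 0 = 2 := rfl
        rw [h00]
        rcases lt_trichotomy (2 + 2 * i' + 4 * j') (1 + 2 * i + 4 * j) with h | h | h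
        · left; omega
        · omega
        · exact absurd (hg0 i' j' (by omega)) hne
      · rw [ha1]
        rcases lt_trichotomy (1 + 2 * i' + 4 * j') (1 + 2 * i + 4 * j) with h | h | h
        · left; omega
        · right
          refine ⟨by omega, Or.inr ⟨rfl, ?_⟩⟩
          by_contra hcon
          apply hne
          rw [he1 i' j' (by omega), form_Tri hl _ hAX hAY,
            kill_Tri hb _ _ _ _ hr hs (by omega)]
          rfl
        · exact absurd (hg1 i' j' (by omega)) hne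
      · have h22 : aT 2 = 0 := rfl
        rw [h22]
        rcases lt_trichotomy (2 * i' + 4 * j') (1 + 2 * i + 4 * j) with h | h | h
        · left; omega
        · omega
        · exact absurd (hg2 i' j' (by omega)) hne
  · -- `c = 2`
    have ha2 : aT 2 = 0 := rfl
    rw [ha2] at hr ⊢
    rw [zero_add] at hr
    obtain ⟨G, hG, hg2, he2, hg1, hg0, he0⟩ := core_Tri (r := r) (s := s) hl hd hx hi
      (i + 3 * j) (i + j) 1 0 hr hs ⟨i + 2 * j, by ring⟩
    have hAX : Commute (1 : Module.End (ZMod 3) (Fn3 (3 ^ r) (3 ^ s))) dX := Commute.one_left _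
    have hAY : Commute (1 : Module.End (ZMod 3) (Fn3 (3 ^ r) (3 ^ s))) dY := Commute.one_left _
    refine ⟨G, hG, ?_, ?_⟩
    · rw [he2 i j (by ring), one_mul, form_Tri hl _ hAX hAY]
      have e : i + 3 * j = (i + j) + (2 * j + 0) := by ring
      rw [e, val_Tri hb _ j (i + j) 0 (by omega) hs, Module.End.one_apply, bb00_Tri]
      exact h1'
    · intro c' i' j' hc' hne
      have hc3 : c' = 0 ∨ c' = 1 ∨ c' = 2 := by omega
      rcases hc3 with rfl | rfl | rfl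
      · have h00 : aT 0 = 2 := rfl
        rw [h00]
        rcases lt_trichotomy (2 + 2 * i' + 4 * j') (2 * i + 4 * j) with h | h | h
        · left; omega
        · right
          exact ⟨by omega, Or.inl (by norm_num)⟩
        · exact absurd (hg0 i' j' (by omega)) hne
      · have h11 : aT 1 = 1 := rfl
        rw [h11]
        rcases lt_trichotomy (1 + 2 * i' + 4 * j') (2 * i + 4 * j) with h | h | h
        · left; omega
        · omega
        · exact absurd (hg1 i' j' (by omega)) hne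
      · rw [ha2]
        rcases lt_trichotomy (2 * i' + 4 * j') (2 * i + 4 * j) with h | h | h
        · left; omega
        · right
          refine ⟨by omega, Or.inr ⟨rfl, ?_⟩⟩
          by_contra hcon
          apply hne
          rw [he2 i' j' (by omega), one_mul, form_Tri hl _ hAX hAY,
            kill_Tri hb _ _ _ _ hr hs (by omega)]
          rfl
        · exact absurd (hg2 i' j' (by omega)) hne

end Pool.Agent.Helper33.TH3
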